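import Mathlib
import Pool.Agent.K7.H57.SP.Fin

set_option autoImplicit false

/-!
# General fat points of the plane stay non-exceptional when many small points are added

Let `u 1, …, u a` be arbitrary multiplicities and `x 1, …, x s` multiplicities between `1` and `E`.
Let `D` be the critical degree of all these points, the largest one in which they impose at least as
many conditions as there are forms. Suppose that some multiplicity `v` occurs at least `4 K` times
among the `x i`.

* If the general points with the multiplicities `u` impose maximal conditions in every degree and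
  `(6 E + 1) (D + 2) ≤ K v`, then all the points together impose maximal conditions in EVERY degree,
  for points of one nonempty Zariski open set.
* The same if they are only known to do so in two degrees `e` and `f` on the two sides of their
  critical degree, and `6 E (D + 2) + δ ≤ K v`, where `δ` bounds the difference between the number of
  forms and the number of conditions in the degrees `e` and `f`.
* So this is true for `N ≥ 37` points (or `N = 13, 21`) of an arbitrary multiplicity `m`, and small
  points as above.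
* If there are `2 N` points of multiplicity `⌊b/2⌋` and `2 N` points of multiplicity `⌈b/2⌉`, with
  `N ≥ 6 (3 E + 2) ^ 2` and `b ≥ 10 (E + 2) ^ 2`, then any number of arbitrary points of
  multiplicities `≤ E` may be added.

The proof: strips of a triangle of exponents are tiled by the small points, so that all points
together are almost exact up to `3 E (D + 1)` conditions. If `4 K` equal points of multiplicity `v`
are replaced by `K` points of multiplicity `2 v`, or `2 v + 1`, then the number of conditions changes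
by more than that, and the doubling theorem of the starting library (`Pool.Agent.TH545.SD.GD.four`)
interpolates.
-/

namespace Pool.Agent.Results.MP_1dafdd_ag.AddingSmallPoints

open MvPolynomial

/-- Forms of degree `d` vanishing to order at least `w i` at the points `(P i 0 : P i 1 : 1)`. -/
noncomputable def forms {n : ℕ} (P : Fin n → Fin 2 → ℂ) (d : ℕ) (w : Fin n → ℕ) :
    Submodule ℂ (MvPolynomial (Fin 3) ℂ) :=
  homogeneousSubmodule (Fin 3) ℂ d ⊓
    Submodule.restrictScalars ℂ
      (⨅ i : Fin n, (Ideal.span {X 0 - C (P i 0) * X 2, X 1 - C (P i 1) * X 2} :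
        Ideal (MvPolynomial (Fin 3) ℂ)) ^ (w i))

/-- The number of conditions of points of multiplicities `w`: the length of the scheme. -/
def len {n : ℕ} (w : Fin n → ℕ) : ℕ := ∑ i, (w i + 1).choose 2

/-- The points `P` with the multiplicities `w` impose maximal conditions in degree `d`. -/
def Maximal {n : ℕ} (P : Fin n → Fin 2 → ℂ) (d : ℕ) (w : Fin n → ℕ) : Prop :=
  (Module.finrank ℂ ↥(forms P d w) : ℤ) = max 0 (((d + 2).choose 2 : ℤ) - (len w : ℤ))

/-- General points with the multiplicities `w` impose maximal conditions in degree `d`. -/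
def GeneralMaximal {n : ℕ} (d : ℕ) (w : Fin n → ℕ) : Prop :=
  ∃ F : MvPolynomial (Fin n × Fin 2) ℂ, F ≠ 0 ∧ ∀ P : Fin n → Fin 2 → ℂ,
    eval (fun ij : Fin n × Fin 2 => P ij.1 ij.2) F ≠ 0 → Maximal P d w

/-- General points with the multiplicities `w` impose maximal conditions in every degree: there is
one nonempty open set of points for all degrees. -/
def MaximalEveryDegree {n : ℕ} (w : Fin n → ℕ) : Prop :=
  ∃ F : MvPolynomial (Fin n × Fin 2) ℂ, F ≠ 0 ∧ ∀ P : Fin n → Fin 2 → ℂ,
    eval (fun ij : Fin n × Fin 2 => P ij.1 ij.2) F ≠ 0 → ∀ d : ℕ, Maximal P d w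

/-- `D` is the critical degree of the number `q` of conditions. -/
def Critical (q D : ℕ) : Prop := (D + 2).choose 2 ≤ q ∧ q < (D + 3).choose 2

/-- The multiplicities `x` are between `1` and `E`, and `1 ≤ v ≤ E` occurs at least `4 K` times. -/
def Small {s : ℕ} (x : Fin s → ℕ) (E v K : ℕ) : Prop :=
  (∀ i, 1 ≤ x i ∧ x i ≤ E) ∧ 1 ≤ v ∧ v ≤ E ∧ 4 * K ≤ (Finset.univ.filter fun i => x i = v).card

open Pool.Agent.TH545.SD Pool.Agent.TH641.UM Pool.Agent.K7.H57.SP Pool.Agent.H932R3

theorem gd_of {n d : ℕ} {w : Fin n → ℕ} (h : GeneralMaximal d w) : GD d (ms w) := by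
  obtain ⟨F, hF, hF'⟩ := h
  refine GD_of_open (K := ℂ) ⟨F, hF, fun P hP => ?_⟩
  have h2 := hF' P hP
  unfold Maximal forms len at h2
  unfold ExpDim
  omega

theorem maximal_of {n : ℕ} {w : Fin n → ℕ}
    (h : ∃ F : MvPolynomial (Fin n × Fin 2) ℂ, F ≠ 0 ∧ ∀ P : Fin n → Fin 2 → ℂ,
      MvPolynomial.eval (fun ij : Fin n × Fin 2 => P ij.1 ij.2) F ≠ 0 →
      ∀ d, ExpDim ℂ w P d) : MaximalEveryDegree w := by
  obtain ⟨F, hF, hF'⟩ := h
  refine ⟨F, hF, fun P hP d => ?_⟩
  have h2 := hF' P hP d
  unfold ExpDim at h2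
  unfold Maximal forms len
  rw [h2]
  omega

theorem count_ms {s : ℕ} (x : Fin s → ℕ) (v : ℕ) :
    (ms x).count v = (Finset.univ.filter fun i => x i = v).card := by
  unfold ms
  rw [Multiset.count_sum']
  simp only [Multiset.count_singleton]
  rw [Finset.card_filter]
  exact Finset.sum_congr rfl fun i _ => by simp only [eq_comm]

theorem mem_of {s E : ℕ} {x : Fin s → ℕ} (h : ∀ i, 1 ≤ x i ∧ x i ≤ E) :
    ∀ y ∈ ms x, 1 ≤ y ∧ y ≤ E := by
  intro y hy
  unfold ms at hy
  rw [Multiset.mem_sum] at hy
  obtain ⟨i, -, hi⟩ := hy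
  rw [Multiset.mem_singleton.1 hi]
  exact h i

theorem result :
    (∀ (a s : ℕ) (u : Fin a → ℕ) (x : Fin s → ℕ) (E v K D e f δ : ℕ), Small x E v K →
      Critical (len u + len x) D → GeneralMaximal e u → GeneralMaximal f u →
      (e + 2).choose 2 ≤ len u → len u ≤ (e + 2).choose 2 + δ →
      len u ≤ (f + 2).choose 2 → (f + 2).choose 2 ≤ len u + δ →
      6 * E * (D + 2) + δ ≤ K * v → MaximalEveryDegree (Fin.append u x)) ∧
    (∀ (a s : ℕ) (u : Fin a → ℕ) (x : Fin s → ℕ) (E v K D : ℕ), Small x E v K →
      Critical (len u + len x) D → 0 < len u → (∀ d, GeneralMaximal d u) →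
      (6 * E + 1) * (D + 2) ≤ K * v → MaximalEveryDegree (Fin.append u x)) ∧
    (∀ (N m s : ℕ) (x : Fin s → ℕ) (E v K D : ℕ), (37 ≤ N ∨ N = 13 ∨ N = 21) → 1 ≤ m →
      Small x E v K → Critical (N * (m + 1).choose 2 + len x) D →
      (6 * E + 1) * (D + 2) ≤ K * v → MaximalEveryDegree (Fin.append (fun _ : Fin N => m) x)) ∧
    (∀ (N b s : ℕ) (x : Fin s → ℕ) (E : ℕ), 1 ≤ E → 6 * (3 * E + 2) ^ 2 ≤ N →
      10 * (E + 2) ^ 2 ≤ b → (∀ i, 1 ≤ x i ∧ x i ≤ E) →
      MaximalEveryDegree (Fin.append (Fin.append (fun _ : Fin (2 * N) => b / 2)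
        (fun _ : Fin (2 * N) => (b + 1) / 2)) x)) := by
  refine ⟨?_, ?_, ?_, ?_⟩
  · intro a s u x E v K D e f δ hx hD he hf h1 h2 h3 h4 h5
    obtain ⟨hx1, hv1, hvE, hK⟩ := hx
    obtain ⟨hD1, hD2⟩ := hD
    have hco : Pool.Agent.TH545.SD.co (ms u + ms x) = len u + len x := by
      rw [co_add, co_ms, co_ms, len, len]
    have hcu : Pool.Agent.TH545.SD.co (ms u) = len u := by rw [co_ms, len]
    rw [← count_ms] at hK
    have key := relative (W := ms u) (M := ms x) (E := E) (D := D) (v := v) (K := K) (e := e)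
      (f := f) (δ := δ) (hv1.trans hvE) (ofE (gd_of he) (by rw [hcu]; exact h1))
      (ofS (gd_of hf) (by rw [hcu]; exact h3)) (by rw [hcu]; exact h4) (by rw [hcu]; exact h2)
      (mem_of hx1) (by rw [hco]; exact hD1) (by rw [hco]; exact hD2) hv1 hvE hK h5
    exact maximal_of (open_of_ends (ms_append u x) (by rw [hco]; exact hD1)
      (by rw [hco]; exact hD2) key.1 key.2)
  · intro a s u x E v K D hx hD hu hW h5
    obtain ⟨hx1, hv1, hvE, hK⟩ := hx
    obtain ⟨hD1, hD2⟩ := hD
    have hco : Pool.Agent.TH545.SD.co (ms u + ms x) = len u + len x := by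
      rw [co_add, co_ms, co_ms, len, len]
    have hcu : Pool.Agent.TH545.SD.co (ms u) = len u := by rw [co_ms, len]
    rw [← count_ms] at hK
    have key := relative_all (W := ms u) (M := ms x) (E := E) (D := D) (v := v) (K := K)
      (hv1.trans hvE) (fun d => gd_of (hW d)) (by rw [hcu]; exact hu)
      (mem_of hx1) (by rw [hco]; exact hD1) (by rw [hco]; exact hD2) hv1 hvE hK h5
    exact maximal_of (open_of_ends (ms_append u x) (by rw [hco]; exact hD1)
      (by rw [hco]; exact hD2) key.1 key.2)
  · intro N m s x E v K D hN hm hx hD h5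
    obtain ⟨hx1, hv1, hvE, hK⟩ := hx
    obtain ⟨hD1, hD2⟩ := hD
    have hcu : Pool.Agent.TH545.SD.co (N • ({m} : Multiset ℕ)) = N * (m + 1).choose 2 := by
      rw [co_smul, co_single]
    have hco : Pool.Agent.TH545.SD.co (N • ({m} : Multiset ℕ) + ms x) =
        N * (m + 1).choose 2 + len x := by
      rw [co_add, hcu, co_ms, len]
    have hpos : 1 ≤ N * (m + 1).choose 2 := by
      have h1 : 1 ≤ (m + 1).choose 2 := Nat.choose_pos (by omega)
      exact Nat.mul_pos (by omega) h1
    rw [← count_ms] at hK
    have key := relative_all (W := N • ({m} : Multiset ℕ)) (M := ms x) (E := E) (D := D) (v := v)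
      (K := K) (hv1.trans hvE) (fun d => GD.uniform hm hN) (by rw [hcu]; exact hpos)
      (mem_of hx1) (by rw [hco]; exact hD1) (by rw [hco]; exact hD2) hv1 hvE hK h5
    exact maximal_of (open_of_ends (by rw [ms_append, ms_fin]) (by rw [hco]; exact hD1)
      (by rw [hco]; exact hD2) key.1 key.2)
  · intro N b s x E hE hN hb hx
    obtain ⟨D, h1, h2, g1, g2⟩ := Pool.Agent.K7.H57.SP.main hE hN hb (mem_of hx)
    refine maximal_of (open_of_ends ?_ h1 h2 g1 g2)
    rw [ms_append, ms_append, ms_fin, ms_fin]
    congr 1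
    unfold halves
    have e : ({b / 2, b / 2, (b + 1) / 2, (b + 1) / 2} : Multiset ℕ) =
        2 • {b / 2} + 2 • {(b + 1) / 2} := by
      rw [two_smul, two_smul]
      rfl
    rw [e, smul_add, ← mul_smul, ← mul_smul, mul_comm 2 N]

end Pool.Agent.Results.MP_1dafdd_ag.AddingSmallPoints
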