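import Mathlib
import Pool.Agent.K7.H33.BP.HHConv

set_option autoImplicit false

/-!
# General fat points of the plane: all multiplicities but nine are small

Let `m i` be the multiplicities of general points of the plane, `d` a degree, and suppose that all
`m i` but at most nine are at most `μ`. Write `χ = (d + 2).choose 2 - len m`, `S` for the sum of the
multiplicities which are at most `μ`, and `R = (d + 1) (d + 2) - ∑ m i (m i + 1)`, the sum over the
`m i > μ`, for the room which the large points leave. Suppose that one of the following holds.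

* `30000000 (μ + 1) (d + μ + 2) ≤ 4 χ`.
* `30000001 (μ + 1) (d + μ + 2) ≤ S` and `5 (μ + 1) (d + μ + 2) ≤ R`.
* `60000002 (μ + 1) ^ 2 (d + μ + 2) ≤ R` (any number of small points).
* `30000000 (μ + 1) (d + μ + 2) ≤ S + 4 |χ|`, and the class is in standard form: the sum of any three
  multiplicities is at most `d`.

Then the Segre-Harbourne-Gimigliano-Hirschowitz conjecture is true for this class: the points fail
to impose maximal conditions in degree `d` if and only if there is a nonzero form and a `(-1)`-curve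
which meets the class at most `-2` times; and if the class is in standard form, they impose maximal
conditions.

The proof: for standard classes, nine triangles of the sizes of the large multiplicities are packed
into the triangle of size `d` by lines, each of which cuts its region into two; the remaining regions
are polygons, and the systems of small points on a polygon are exact up to an error of order `μ d`,
by a dyadic decomposition into squares. The doubling of points removes the error. Quadratic
transformations reduce all classes to standard ones.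
-/

namespace Pool.Agent.Results.MP_1dafdd_ag.AllButNine

open MvPolynomial Pool.Agent.K7.H33.BP

/-- The homogeneous ideal of the point `(p 0 : p 1 : 1)`. -/
noncomputable def pt (p : Fin 2 → ℂ) : Ideal (MvPolynomial (Fin 3) ℂ) :=
  Ideal.span {X 0 - C (p 0) * X 2, X 1 - C (p 1) * X 2}

/-- Forms of degree `d` vanishing to order at least `w i` at the points `P i`. -/
noncomputable def forms {n : ℕ} (P : Fin n → Fin 2 → ℂ) (d : ℕ) (w : Fin n → ℕ) :
    Submodule ℂ (MvPolynomial (Fin 3) ℂ) :=
  homogeneousSubmodule (Fin 3) ℂ d ⊓ Submodule.restrictScalars ℂ (⨅ i, pt (P i) ^ (w i))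

/-- The number of conditions of points of multiplicities `w`: the length of the scheme. -/
def len {n : ℕ} (w : Fin n → ℕ) : ℕ := ∑ i, (w i + 1).choose 2

/-- The points `P` with the multiplicities `w` impose maximal conditions in degree `d`. -/
def Maximal {n : ℕ} (P : Fin n → Fin 2 → ℂ) (d : ℕ) (w : Fin n → ℕ) : Prop :=
  (Module.finrank ℂ ↥(forms P d w) : ℤ) = max 0 (((d + 2).choose 2 : ℤ) - (len w : ℤ))

/-- The form `G` is irreducible of degree `e` with multiplicity exactly `u i` at `P i` for all `i`,
and its strict transform on the blow-up is a `(-1)`-curve: it has the self-intersection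
`e ^ 2 - ∑ u i ^ 2 = -1` and the intersection number `-3 e + ∑ u i = -1` with the canonical class. -/
def MinusOneCurve {n : ℕ} (P : Fin n → Fin 2 → ℂ) (G : MvPolynomial (Fin 3) ℂ) (e : ℕ)
    (u : Fin n → ℕ) : Prop :=
  Irreducible G ∧ G.IsHomogeneous e ∧ (∀ i, G ∈ pt (P i) ^ (u i) ∧ G ∉ pt (P i) ^ (u i + 1)) ∧
    (e : ℤ) ^ 2 - ∑ i, (u i : ℤ) ^ 2 = -1 ∧ -3 * (e : ℤ) + ∑ i, (u i : ℤ) = -1

/-- The sum of any three multiplicities is at most the degree. -/
def Standard {n : ℕ} (d : ℕ) (m : Fin n → ℕ) : Prop :=
  ∀ i j k : Fin n, i ≠ j → i ≠ k → j ≠ k → m i + m j + m k ≤ d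

/-- The Euler characteristic of the class. -/
def χ {n : ℕ} (d : ℕ) (m : Fin n → ℕ) : ℤ := ((d + 2).choose 2 : ℤ) - (len m : ℤ)

/-- The sum of the multiplicities which are at most `μ`. -/
def smallSum {n : ℕ} (μ : ℕ) (m : Fin n → ℕ) : ℤ := ∑ i, if m i ≤ μ then (m i : ℤ) else 0

/-- The room which is left by the multiplicities larger than `μ`, doubled. -/
def room {n : ℕ} (μ d : ℕ) (m : Fin n → ℕ) : ℤ :=
  ((d : ℤ) + 1) * (d + 2) - ∑ i, if μ < m i then (m i : ℤ) * (m i + 1) else 0

/-- One of the four conditions. -/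
def Admissible {n : ℕ} (μ d : ℕ) (m : Fin n → ℕ) : Prop :=
  30000000 * (((μ : ℤ) + 1) * (d + μ + 2)) ≤ 4 * χ d m ∨
  (30000001 * (((μ : ℤ) + 1) * (d + μ + 2)) ≤ smallSum μ m ∧
    5 * (((μ : ℤ) + 1) * (d + μ + 2)) ≤ room μ d m) ∨
  60000002 * (((μ : ℤ) + 1) ^ 2 * (d + μ + 2)) ≤ room μ d m ∨
  (Standard d m ∧ 30000000 * (((μ : ℤ) + 1) * (d + μ + 2)) ≤ smallSum μ m + 4 * |χ d m|)

theorem result (r : ℕ) (m : Fin (r + 4) → ℕ) (d μ : ℕ)
    (h9 : (Finset.univ.filter fun i => μ < m i).card ≤ 9) (h : Admissible μ d m) :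
    ∃ F : MvPolynomial (Fin (r + 4) × Fin 2) ℂ, F ≠ 0 ∧
      ∀ P : Fin (r + 4) → Fin 2 → ℂ,
        eval (fun ij : Fin (r + 4) × Fin 2 => P ij.1 ij.2) F ≠ 0 →
          (¬ Maximal P d m ↔ forms P d m ≠ ⊥ ∧
            ∃ (G : MvPolynomial (Fin 3) ℂ) (e : ℕ) (u : Fin (r + 4) → ℕ),
              MinusOneCurve P G e u ∧ (d : ℤ) * e - ∑ i, (m i : ℤ) * u i ≤ -2) ∧
          (Standard d m → Maximal P d m) := by
  have hlen : χ d m = Pool.Agent.K7.H33.SH.chi d m := by
    unfold Pool.Agent.K7.H33.SH.chi χ len
    push_cast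
    rfl
  have hIv : (30000000 * (((μ : ℤ) + 1) * (d + μ + 2)) ≤ 4 * Pool.Agent.K7.H33.SH.chi d m ∨
      HH.Iv μ d m) ∨ (Pool.Agent.K7.H33.SH.Reduced d m ∧
        30000000 * (((μ : ℤ) + 1) * (d + μ + 2)) ≤
          HH.small μ m + 4 * |Pool.Agent.K7.H33.SH.chi d m|) := by
    rw [← hlen]
    rcases h with h | h | h | h
    · exact Or.inl (Or.inl h)
    · exact Or.inl (Or.inr h)
    · have := HH.room_cases (w := m) h
      rw [← hlen] at this
      exact Or.inl this
    · exact Or.inr h
  obtain ⟨F, hF, hF'⟩ := HH.conv_nine d μ m h9 hIv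
  refine ⟨F, hF, fun P hP => ?_⟩
  obtain ⟨key, key2⟩ := hF' P hP
  have e1 : Pool.Agent.TH167.SHDefs.sys P d m = forms P d m := rfl
  have e2 : Pool.Agent.TH167.SHDefs.Special P d m ↔ ¬ Maximal P d m := by
    unfold Pool.Agent.TH167.SHDefs.Special Maximal Pool.Agent.TH167.SHDefs.dimL
      Pool.Agent.TH167.SHDefs.virtdim
    rw [e1]
    unfold len
    push_cast
    rw [not_iff_not]
    constructor
    · intro h
      have h1 := h
      rcases le_total (((d + 2).choose 2 : ℤ) - ∑ i, ((m i + 1).choose 2 : ℤ)) 0 with h2 | h2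
      · rw [max_eq_left h2]
        rw [max_eq_right (by omega)] at h1
        omega
      · rw [max_eq_right h2]
        rw [max_eq_left (by omega)] at h1
        omega
    · intro h
      have h1 := h
      rcases le_total (((d + 2).choose 2 : ℤ) - ∑ i, ((m i + 1).choose 2 : ℤ)) 0 with h2 | h2
      · rw [max_eq_left h2] at h1
        rw [max_eq_right (by omega)]
        omega
      · rw [max_eq_right h2] at h1
        rw [max_eq_left (by omega)]
        omega
  constructor
  · rw [← e2, key, e1]
    refine and_congr Iff.rfl (exists_congr fun G => exists_congr fun e => exists_congr fun u => ?_)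
    refine and_congr ?_ Iff.rfl
    unfold MinusOneCurve
    constructor
    · rintro ⟨⟨c1, c2, c3⟩, c4, c5⟩
      refine ⟨c1, c2, c3, ?_, c5⟩
      unfold Pool.Agent.TH167.SHDefs.inter at c4
      rw [← c4]
      simp only [pow_two]
    · rintro ⟨c1, c2, c3, c4, c5⟩
      refine ⟨⟨c1, c2, c3⟩, ?_, c5⟩
      unfold Pool.Agent.TH167.SHDefs.inter
      rw [← c4]
      simp only [pow_two]
  · intro hS
    by_contra hM
    exact key2 hS (e2.2 hM)

end Pool.Agent.Results.MP_1dafdd_ag.AllButNine
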