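import Mathlib
import Pool.Agent.K7.H33.BP.Chains

set_option autoImplicit false

/-!
# General fat points of the plane: large points in toric position and arbitrary small points

The multiplicities of `n` general points of the plane are divided into large ones, those of the
points in `I`, and small ones, which are at most `μ`. The large ones are supposed to be `Toric` in
degree `d`: triangles of the sizes `m i`, `i ∈ I`, can be cut off, one after the other, at the
corners of a triangle of size `d` (with unimodular corners at every step). For instance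
(`toric_chains`) this is the case if the large multiplicities are divided into three groups `A`, `B`,
`C` with `∑ A + b ≤ d`, `∑ B + c ≤ d`, `∑ C + a ≤ d` for all `a ∈ A`, `b ∈ B`, `c ∈ C`; in
particular three large multiplicities whose pairwise sums are at most `d`, or any number of them
whose sum is at most `d`.

Then the points impose maximal conditions in degree `d`, unless the number of the conditions is
close to the number of the forms and there are few small points: it is sufficient that
`4000000 (μ + 1) (d + μ + 2)` is at most the sum of the small multiplicities plus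
`2 |(d + 1) (d + 2) - ∑ m i (m i + 1)|`. This is the case for every number of small points of
arbitrary multiplicities `≤ μ` if
`(d + 1) (d + 2) - ∑ i ∈ I, m i (m i + 1) ≥ 8000000 (μ + 1) ^ 2 (d + μ + 2)`.

The proof: the corner triangles are cut off by degenerations of the points; what remains are the
lattice points of a convex polygon. A dyadic decomposition into squares, a bounded number of which
for every size and unit of length meets the boundary, shows that the systems of small points on a
polygon are exact up to an error of order `μ d`, and the doubling of points removes the error.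
-/

namespace Pool.Agent.Results.MP_1dafdd_ag.LargeToricPoints

open MvPolynomial Pool.Agent.K7.H33.BP

/-- Forms of degree `d` vanishing to order at least `w i` at the points `(P i 0 : P i 1 : 1)`. -/
noncomputable def forms {n : ℕ} (P : Fin n → Fin 2 → ℂ) (d : ℕ) (w : Fin n → ℕ) :
    Submodule ℂ (MvPolynomial (Fin 3) ℂ) :=
  homogeneousSubmodule (Fin 3) ℂ d ⊓
    Submodule.restrictScalars ℂ
      (⨅ i : Fin n, (Ideal.span {X 0 - C (P i 0) * X 2, X 1 - C (P i 1) * X 2} :
        Ideal (MvPolynomial (Fin 3) ℂ)) ^ (w i))

/-- The number of conditions of points of multiplicities `w`: the length of the scheme. -/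
def len {n : ℕ} (w : Fin n → ℕ) : ℕ := ∑ i, (w i + 1).choose 2

/-- The points `P` with the multiplicities `w` impose maximal conditions in degree `d`. -/
def Maximal {n : ℕ} (P : Fin n → Fin 2 → ℂ) (d : ℕ) (w : Fin n → ℕ) : Prop :=
  (Module.finrank ℂ ↥(forms P d w) : ℤ) = max 0 (((d + 2).choose 2 : ℤ) - (len w : ℤ))

/-- The large points `I` are toric in degree `d`, the other multiplicities are at most `μ`, and the
numbers of forms and conditions, or the small multiplicities, satisfy one of two inequalities. -/
def Admissible {n : ℕ} (m : Fin n → ℕ) (d μ : ℕ) (I : Finset (Fin n)) : Prop :=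
  Toric d (I.val.map m) ∧ (∀ i, i ∉ I → m i ≤ μ) ∧
    (4000000 * (((μ : ℤ) + 1) * (d + μ + 2)) ≤
        ∑ i ∈ Iᶜ, (m i : ℤ) + 2 * |((d : ℤ) + 1) * (d + 2) - ∑ i, (m i : ℤ) * (m i + 1)| ∨
      8000000 * (((μ : ℤ) + 1) ^ 2 * (d + μ + 2)) ≤
        ((d : ℤ) + 1) * (d + 2) - ∑ i ∈ I, (m i : ℤ) * (m i + 1))

theorem result :
    (∀ (n : ℕ) (m : Fin n → ℕ), ∃ F : MvPolynomial (Fin n × Fin 2) ℂ, F ≠ 0 ∧
      ∀ P : Fin n → Fin 2 → ℂ, eval (fun ij : Fin n × Fin 2 => P ij.1 ij.2) F ≠ 0 →
        ∀ (d μ : ℕ) (I : Finset (Fin n)), Admissible m d μ I → Maximal P d m) ∧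
    (∀ (d : ℕ) (N : Fin 3 → Multiset ℕ), (∀ i, (N i).sum ≤ d) →
      (∀ i, ∀ v ∈ N (i + 1), (N i).sum + v ≤ d) → Toric d (N 0 + N 1 + N 2)) := by
  refine ⟨fun n m => ?_, fun d N h1 h2 => toric_chains h1 h2⟩
  obtain ⟨F, hF, hF'⟩ := toric_points m
  refine ⟨MvPolynomial.map (algebraMap ℚ ℂ) F, ?_, fun P hP d μ I hI => ?_⟩
  · intro h
    apply hF
    apply MvPolynomial.map_injective (algebraMap ℚ ℂ) (algebraMap ℚ ℂ).injective
    rw [h, map_zero]
  · obtain ⟨hT, hμ, h⟩ := hI
    have hP' : MvPolynomial.aeval (fun ij : Fin n × Fin 2 => P ij.1 ij.2) F ≠ 0 := by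
      rw [MvPolynomial.eval_map] at hP
      rw [MvPolynomial.aeval_def]
      exact hP
    have key := hF' P hP' d μ I hT hμ (numeric hμ h)
    unfold Pool.Agent.H932R3.ExpDim at key
    unfold Maximal forms len
    rw [key]
    omega

end Pool.Agent.Results.MP_1dafdd_ag.LargeToricPoints
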