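import Pool.Agent.K7.H43.PT.Fin
import Pool.Agent.H350R3.MG.PLem

/-!
# General fat points of `ℙ^r`: `t ^ r` equal points in all degrees, and points at several scales

* `t ^ 3` general points of `ℙ ^ 3` of the same multiplicity `μ` impose maximal conditions in every
  degree `d` for which the expected dimension is not very close to zero,
  `|binom (d + 3) 3 - t ^ 3 * binom (μ + 2) 3| ≥ 3 μ (μ - 1) / 2`; in every degree if `t ≤ 1000`, and
  in every degree if `2 t ≤ 3 μ ^ 2`.
* `t ^ r` general points of `ℙ ^ r` of the same multiplicity `μ` impose maximal conditions in every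
  degree if `μ ≥ 4 (r - 1) ^ 3 t`.
* A criterion for any number `N` of general points of the same multiplicity (`NoForms.scales`,
  `Independent.scales`): in the limit, the points are close to a complete intersection curve of
  `r - 1` hypersurfaces of degree `t`, at different speeds.
* The classes are closed under collisions of points.
-/

set_option autoImplicit false

namespace Pool.Agent.Results.MP_1dafdd_ag.PerfectPowersAllDegrees

open MvPolynomial
open scoped LinearAlgebra.Projectivization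
open Pool.Agent.H350R3.MG

/-- `V_d(Γ)`: the forms of degree `d` vanishing to order at least `m i` at the `i`-th point. -/
noncomputable def forms {r k : ℕ} (d : ℕ) (m : Fin k → ℕ) (P : Fin k → ℙ ℂ (Fin (r + 1) → ℂ)) :
    Submodule ℂ (MvPolynomial (Fin (r + 1)) ℂ) :=
  homogeneousSubmodule (Fin (r + 1)) ℂ d ⊓
    Submodule.restrictScalars ℂ (⨅ i, primeIdeal (P i) ^ m i : Ideal (MvPolynomial (Fin (r + 1)) ℂ))

/-- `Γ` imposes maximal conditions in degree `d`. -/
def ImposesMaximalConditions {r k : ℕ} (d : ℕ) (m : Fin k → ℕ)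
    (P : Fin k → ℙ ℂ (Fin (r + 1) → ℂ)) : Prop :=
  (Module.finrank ℂ (forms d m P) : ℤ) =
    max 0 (((d + r).choose r : ℤ) - ∑ i, ((m i + r - 1).choose r : ℤ))

/-- The cases for `t ^ r` points of multiplicity `μ` in degree `d`. The first three disjuncts are
new, the fourth, fifth and sixth are as in `PerfectPowersWindow`, and the last one is as in
`PerfectPowerCollisions`. -/
def Case (r t μ d : ℕ) : Prop :=
  (r = 3 ∧ (t ≤ 1000 ∨ 2 * t ≤ 3 * μ ^ 2 ∨
    2 * (d + 3).choose 3 + 3 * μ * (μ - 1) ≤ 2 * (t ^ 3 * (μ + 2).choose 3) ∨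
    2 * (t ^ 3 * (μ + 2).choose 3) + 3 * μ * (μ - 1) ≤ 2 * (d + 3).choose 3)) ∨
  4 * (r - 1) ^ 3 * t ≤ μ ∨
  (∃ c s, d = t * μ + c ∧ 2 * c + r + 1 ≤ (r - 1) * t ∧
    2 * (r - 1) * (r - 1 + c / t) * s ≤ t ^ (r - 1) * ((r - 1) * t - (2 * c + r + 1)) ∧
    t ^ (r - 1) * (c + 1) + s * ((r - 1) * (c / t) + (r - 1) ^ 2) ≤ s * (μ + 1)) ∨
  (∃ c, c < t ∧ d = t * μ + c ∧
    (c + r).choose r ≤
      μ * ((t ^ r + (r - 1) * (c + r).choose r - (t + c + r).choose r) / (r - 1))) ∨
  μ = 1 ∨
  ((r = 4 ∧ t = 5) ∨ (r = 5 ∧ t = 3)) ∨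
  ((r - 1) * t ^ r ≤ μ ∨ d < t * μ ∨ 2 * t * μ + (r - 1) * t ≤ 2 * d + r + 1 ∨
    (d + t + r - t * μ).choose r ≤ t ^ r ∨
    ((t = 2 ∧ (r ≤ 5 ∨ r = 7)) ∨ (t = 3 ∧ r ≤ 4) ∨ (t ≤ 5 ∧ r ≤ 3)))

/-- The number of the monomials of degree `l` in `n + 2` variables whose first `n` exponents are
less than `t`: the Hilbert function of a complete intersection of `n` hypersurfaces of degree `t` in
`ℙ ^ (n + 1)`. -/
def hilb (n t l : ℕ) : ℕ := ∑ e : Fin n → Fin t, (l + 1 - ∑ i, (e i : ℕ))

/-- The numbers `S_k` for `N` points of multiplicity `m`, with parameters `E`, `ρ_0`, `ρ_1`, ... -/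
def S (n m E N : ℕ) (ρ : ℕ → ℕ) (k : ℕ) : ℕ :=
  ∑ q ∈ Finset.range (m + E), ρ q *
    (if k ≤ q then m + E - k - n * E else n * (k - q - 1 - E)) +
    (N - n * ∑ q ∈ Finset.range (m + E), ρ q) * (k - E)

/-- The smallest class of pairs consisting of a degree `d` and a multiset `M` of multiplicities of
points of `ℙ^r` with the following properties:

* it contains `t ^ r` points of multiplicity `μ` in degree `d` in the cases `Case r t μ d`, provided
  that `binom (d + r) r ≤ t ^ r * binom (μ + r - 1) r`;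
* it contains `N` points of multiplicity `m ≥ 1` in degree `t (m + E) + c`, where `0 ≤ c < t`, if
  there are numbers `ρ_q` with `(r - 1) ∑ ρ_q ≤ N` such that `hilb (t k + c) ≤ S_k` for
  `0 ≤ k ≤ m + E`;
* it is closed under adding a point and under decreasing the degree;
* if it contains `{μ} + M` in degree `d` and `M'` in degree `μ - 1`, it contains `M' + M` in
  degree `d`. -/
inductive NoForms (r : ℕ) : ℕ → Multiset ℕ → Prop
  | powers (t μ d : ℕ) (ht : 1 ≤ t) (hc : Case r t μ d)
      (h : (d + r).choose r ≤ t ^ r * (μ + r - 1).choose r) :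
      NoForms r d (Multiset.replicate (t ^ r) μ)
  | scales (N m t c E : ℕ) (ρ : ℕ → ℕ) (hm : 1 ≤ m) (hc : c < t)
      (hN : (r - 1) * ∑ q ∈ Finset.range (m + E), ρ q ≤ N)
      (h : ∀ k, k ≤ m + E → hilb (r - 1) t (t * k + c) ≤ S (r - 1) m E N ρ k) :
      NoForms r (t * (m + E) + c) (Multiset.replicate N m)
  | point (d b : ℕ) (M : Multiset ℕ) (h : NoForms r d M) : NoForms r d (b ::ₘ M)
  | degree (d d' : ℕ) (M : Multiset ℕ) (hd : d' ≤ d) (h : NoForms r d M) : NoForms r d' M
  | collision (d μ : ℕ) (M M' : Multiset ℕ) (h : NoForms r d (μ ::ₘ M))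
      (h' : NoForms r (μ - 1) M') : NoForms r d (M' + M)

/-- The smallest class of pairs consisting of a degree `d` and a multiset `M` of multiplicities of
points of `ℙ^r` with the following properties:

* it contains `t ^ r` points of multiplicity `μ` in degree `d` in the cases `Case r t μ d`, provided
  that `t ^ r * binom (μ + r - 1) r ≤ binom (d + r) r`;
* it contains `N` points of multiplicity `m ≥ 1` in degree `t m + c`, where `0 ≤ c < t`, if
  there are numbers `ρ_q` with `(r - 1) ∑ ρ_q ≤ N` such that `S_k ≤ hilb (t k + c)` for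
  `0 ≤ k ≤ m`, where `E = 0`;
* it is closed under removing a point and under increasing the degree;
* if it contains `{μ} + M` in degree `d` and `M'` in degree `μ - 1`, where `μ ≥ 1`, it contains
  `M' + M` in degree `d`. -/
inductive Independent (r : ℕ) : ℕ → Multiset ℕ → Prop
  | powers (t μ d : ℕ) (ht : 1 ≤ t) (hc : Case r t μ d)
      (h : t ^ r * (μ + r - 1).choose r ≤ (d + r).choose r) :
      Independent r d (Multiset.replicate (t ^ r) μ)
  | scales (N m t c : ℕ) (ρ : ℕ → ℕ) (hm : 1 ≤ m) (hc : c < t)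
      (hN : (r - 1) * ∑ q ∈ Finset.range m, ρ q ≤ N)
      (h : ∀ k, k ≤ m → S (r - 1) m 0 N ρ k ≤ hilb (r - 1) t (t * k + c)) :
      Independent r (t * m + c) (Multiset.replicate N m)
  | remove (d b : ℕ) (M : Multiset ℕ) (h : Independent r d (b ::ₘ M)) : Independent r d M
  | degree (d d' : ℕ) (M : Multiset ℕ) (hd : d ≤ d') (h : Independent r d M) : Independent r d' M
  | collision (d μ : ℕ) (M M' : Multiset ℕ) (hμ : 1 ≤ μ) (h : Independent r d (μ ::ₘ M))
      (h' : Independent r (μ - 1) M') : Independent r d (M' + M)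

lemma forms_eq {r k d : ℕ} (m : Fin k → ℕ) (v : Fin k → Fin (r + 1) → ℂ) (hv : ∀ i, v i ≠ 0) :
    forms d m (fun i => Projectivization.mk ℂ (v i) (hv i)) =
      Pool.Agent.H938R2.forms (r + 1) d m v := by
  unfold forms
  ext F
  rw [Submodule.mem_inf, Submodule.restrictScalars_mem, Submodule.mem_iInf,
    Pool.Agent.H938R2.mem_forms, mem_homogeneousSubmodule]
  have key : F.IsHomogeneous d → ∀ i,
      (F ∈ primeIdeal (Projectivization.mk ℂ (v i) (hv i)) ^ m i ↔
        Pool.Agent.H938R2.VanishesToOrder (m i) (v i) F) := by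
    intro hF i
    rw [primeIdeal_mk]
    exact Pool.Agent.TH176.FB.mem_pow_iff_vanishes (hv i) ((mem_homogeneousSubmodule _ _).2 hF)
  constructor
  · rintro ⟨h1, h2⟩
    exact ⟨h1, fun i => (key h1 i).1 (h2 i)⟩
  · rintro ⟨h1, h2⟩
    exact ⟨h1, fun i => (key h1 i).2 (h2 i)⟩

lemma toCT {r t μ d : ℕ} (h : Case r t μ d) : Pool.Agent.K7.H43.PT.CT r t μ d := by
  rcases h with h | h | h | h | h | h | h
  · exact Or.inr (Or.inl h)
  · exact Or.inr (Or.inr (Or.inl h))
  · exact Or.inr (Or.inr (Or.inr h))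
  · exact Or.inl (Or.inr (Or.inr (Or.inl h)))
  · exact Or.inl (Or.inr (Or.inl h))
  · exact Or.inl (Or.inr (Or.inr (Or.inr (Or.inr h))))
  · exact Or.inl (Or.inl h)

lemma emp {n d : ℕ} {M : Multiset ℕ} (h : NoForms (n + 1) d M) :
    Pool.Agent.Y55.Col.Emp (n + 1) (d + 1) M := by
  induction h with
  | powers t μ d ht hc h =>
    have h1 := Pool.Agent.Y55.Col.emp_of_general _
      (Pool.Agent.K7.H43.PT.uniform_zeroT n t μ d ht (toCT hc) h)
    rw [Multiset.map_const', Finset.card_val, Finset.card_univ, Fintype.card_fin] at h1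
    exact h1
  | scales N m t c E ρ hm hc hN h =>
    have h1 := Pool.Agent.Y55.Col.emp_of_general _
      (Pool.Agent.K7.H43.PT.crit_zeroE (n := n) (t := t) (m := m) (c := c) (r := N) (E := E) ρ
        (by omega) hc hm hN h)
    rw [Multiset.map_const', Finset.card_val, Finset.card_univ, Fintype.card_fin] at h1
    have h2 : t * m + (t * E + c) = t * (m + E) + c := by ring
    rwa [h2] at h1
  | point d b M h ih => exact ih.point b
  | degree d d' M hd h ih => exact ih.mono (by omega)
  | collision d μ M M' h h' ih ih' => exact ih.collision (ih'.mono (by omega))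

lemma S_zero {n m N : ℕ} {ρ : ℕ → ℕ} {k : ℕ} :
    S n m 0 N ρ k = Pool.Agent.K7.H43.PT.Sk n m N ρ k := by
  unfold S Pool.Agent.K7.H43.PT.Sk
  simp only [Nat.add_zero, Nat.mul_zero, Nat.sub_zero]

lemma ind {n d : ℕ} {M : Multiset ℕ} (h : Independent (n + 1) d M) :
    Pool.Agent.Y55.Col.Ind n (d + 1) M := by
  induction h with
  | powers t μ d ht hc h => exact Pool.Agent.K7.H43.PT.ind_powersT n t μ d ht (toCT hc) h
  | scales N m t c ρ hm hc hN h =>
    have h1 := Pool.Agent.K7.H43.PT.crit_ind (n := n) (t := t) (m := m) (c := c) (r := N) ρ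
        (by omega) hc hm hN (fun k hk => by rw [← S_zero]; exact h k hk)
    obtain ⟨D, hD, h2⟩ := h1
    have h3 : N * (m + n).choose (n + 1) ≤ (t * m + c + (n + 1)).choose (n + 1) := by
      obtain ⟨p, hp⟩ := Pool.Agent.H938R2.ForGeneral.exists ⟨D, hD, h2⟩
      omega
    refine Pool.Agent.K7.H43.PT.ind_of_gen ?_ h3
    exact Pool.Agent.H938R2.ForGeneral.mono ⟨D, hD, h2⟩ fun p hp => by omega
  | remove d b M h ih => exact ih.remove
  | degree d d' M hd h ih => exact ih.degree (by omega)
  | collision d μ M M' hμ h h' ih ih' =>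
    rw [Nat.sub_add_cancel hμ] at ih'
    exact ih.collision ih'

lemma main {r k d : ℕ} (hr : 1 ≤ r) (m : Fin k → ℕ)
    (h : NoForms r d ((Finset.univ : Finset (Fin k)).val.map m) ∨
      Independent r d ((Finset.univ : Finset (Fin k)).val.map m)) :
    Generally (fun P : Fin k → ℙ ℂ (Fin (r + 1) → ℂ) => ImposesMaximalConditions d m P) := by
  obtain ⟨n, rfl⟩ : ∃ n, r = n + 1 := ⟨r - 1, by omega⟩
  rcases h with hT | hT
  · obtain ⟨D, hD, h⟩ := (Pool.Agent.Y55.Col.general_of_emp (emp hT)).and
      (Pool.Agent.H938R2.forGeneral_ne_zero (by omega))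
    refine generally_of_poly D hD fun v hv hp => ?_
    obtain ⟨h1, h2⟩ := h v hp
    have h3 := Pool.Agent.H938R2.finrank_forms_ge (n + 1) d m v h2
    unfold ImposesMaximalConditions
    rw [forms_eq _ v hv, h1, finrank_bot]
    rw [h1, finrank_bot, zero_add] at h3
    rw [max_eq_left]
    · simp
    · rw [sub_nonpos]
      exact_mod_cast h3
  · obtain ⟨D, hD, h⟩ := Pool.Agent.Y55.Col.general_of_ind (ind hT)
    refine generally_of_poly D hD fun v hv hp => ?_
    have h1 := h v hp
    have e2 : ∀ i, m i + (n + 1) - 1 = m i + n := fun i => by omega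
    unfold ImposesMaximalConditions
    rw [forms_eq _ v hv]
    simp only [e2]
    have h2 : (Module.finrank ℂ (Pool.Agent.H938R2.forms (n + 1 + 1) d m v) : ℤ) =
        ((d + (n + 1)).choose (n + 1) : ℤ) - ∑ i, ((m i + n).choose (n + 1) : ℤ) := by
      rw [eq_sub_iff_add_eq]
      exact_mod_cast h1
    rw [← h2, max_eq_right]
    exact Int.natCast_nonneg _

/-- (a) `t ^ r` general points of `ℙ^r` of multiplicity `μ` impose maximal conditions in degree `d`
in the cases `Case r t μ d`.

(b) General points of `ℙ^r` with multiplicities `m i` impose maximal conditions in degree `d`, if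
the degree and the multiplicities belong to the class `NoForms` or to the class `Independent`. -/
theorem result :
    (∀ r t μ d : ℕ, 1 ≤ r → 1 ≤ t → Case r t μ d →
      Generally (fun P : Fin (t ^ r) → ℙ ℂ (Fin (r + 1) → ℂ) =>
        ImposesMaximalConditions d (fun _ => μ) P)) ∧
    ∀ (r k d : ℕ) (m : Fin k → ℕ), 1 ≤ r →
      (NoForms r d ((Finset.univ : Finset (Fin k)).val.map m) ∨
        Independent r d ((Finset.univ : Finset (Fin k)).val.map m)) →
      Generally (fun P : Fin k → ℙ ℂ (Fin (r + 1) → ℂ) => ImposesMaximalConditions d m P) := by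
  refine ⟨fun r t μ d hr ht hc => main hr _ ?_, fun r k d m hr h => main hr m h⟩
  rw [Multiset.map_const', Finset.card_val, Finset.card_univ, Fintype.card_fin]
  rcases Nat.le_total ((d + r).choose r) (t ^ r * (μ + r - 1).choose r) with h | h
  · exact Or.inl (NoForms.powers t μ d ht hc h)
  · exact Or.inr (Independent.powers t μ d ht hc h)

end Pool.Agent.Results.MP_1dafdd_ag.PerfectPowersAllDegrees
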